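import Pool.Agent.Q254.CrossSp.Comb

set_option autoImplicit false

/-!
MP_841146_co, Q1: the maximum number of intersections of a cross-Sperner pair of families of
subsets of `[2d+1]` is `2^(2d+1) - 2^(d+1) - 2^d + 1`.
-/

open Finset

namespace Pool.Agent.Results.MP_841146_co.OddExact

open Pool.Agent.Q254.CrossSp

/-- Two families of subsets of an `n`-element set are cross-Sperner. -/
def CrossSperner {n : ℕ} (A B : Finset (Finset (Fin n))) : Prop :=
  ∀ a ∈ A, ∀ b ∈ B, ¬ a ⊆ b ∧ ¬ b ⊆ a

/-- The family `{a ∩ b : a ∈ A, b ∈ B}`. -/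
def inters {n : ℕ} (A B : Finset (Finset (Fin n))) : Finset (Finset (Fin n)) :=
  (A ×ˢ B).image (fun p => p.1 ∩ p.2)

/-- The possible numbers of intersections of cross-Sperner pairs. -/
def sizes (n : ℕ) : Set ℕ :=
  {k | ∃ A B : Finset (Finset (Fin n)), CrossSperner A B ∧ k = (inters A B).card}

/-- `m n`: the maximum number of intersections of a cross-Sperner pair. -/
noncomputable def m (n : ℕ) : ℕ := sSup (sizes n)

theorem upper (d : ℕ) (A B : Finset (Finset (Fin (2*d+1)))) (h : CrossSperner A B) :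
    (inters A B).card + 3 * 2^d ≤ 2^(2*d+1) + 1 := by
  classical
  by_cases hne : A.Nonempty ∧ B.Nonempty
  · obtain ⟨⟨a0, ha0⟩, ⟨b0, hb0⟩⟩ := hne
    set P : Finset (Finset (Fin (2*d+1))) := Finset.univ.filter (fun S => ∃ a ∈ A, S ⊆ aᶜ) with hP
    set Q : Finset (Finset (Fin (2*d+1))) := Finset.univ.filter (fun S => ∃ b ∈ B, S ⊆ bᶜ) with hQ
    have hPd : ∀ S ∈ P, ∀ T, T ⊆ S → T ∈ P := by
      intro S hS T hT
      rw [hP, Finset.mem_filter] at hS ⊢
      obtain ⟨-, a, ha, hSa⟩ := hS
      exact ⟨Finset.mem_univ _, a, ha, hT.trans hSa⟩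
    have hQd : ∀ S ∈ Q, ∀ T, T ⊆ S → T ∈ Q := by
      intro S hS T hT
      rw [hQ, Finset.mem_filter] at hS ⊢
      obtain ⟨-, a, ha, hSa⟩ := hS
      exact ⟨Finset.mem_univ _, a, ha, hT.trans hSa⟩
    have hA : ∀ a ∈ A, aᶜ ∈ P \ Q := by
      intro a ha
      rw [Finset.mem_sdiff, hP, hQ, Finset.mem_filter, Finset.mem_filter]
      refine ⟨⟨Finset.mem_univ _, a, ha, Finset.Subset.refl _⟩, ?_⟩
      rintro ⟨-, b, hb, hab⟩
      exact (h a ha b hb).2 (Finset.compl_subset_compl.1 hab)
    have hB : ∀ b ∈ B, bᶜ ∈ Q \ P := by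
      intro b hb
      rw [Finset.mem_sdiff, hP, hQ, Finset.mem_filter, Finset.mem_filter]
      refine ⟨⟨Finset.mem_univ _, b, hb, Finset.Subset.refl _⟩, ?_⟩
      rintro ⟨-, a, ha, hab⟩
      exact (h a ha b hb).1 (Finset.compl_subset_compl.1 hab)
    have hcore := core d P Q hPd hQd ⟨_, hA a0 ha0⟩ ⟨_, hB b0 hb0⟩
    have himg : (inters A B).image (fun S => Sᶜ) ⊆ unions (P \ Q) (Q \ P) := by
      intro S hS
      rw [Finset.mem_image] at hS
      obtain ⟨T, hT, rfl⟩ := hS
      unfold inters at hT
      rw [Finset.mem_image] at hT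
      obtain ⟨⟨a, b⟩, hab, rfl⟩ := hT
      rw [Finset.mem_product] at hab
      rw [mem_unions]
      refine ⟨aᶜ, hA a hab.1, bᶜ, hB b hab.2, ?_⟩
      rw [Finset.compl_inter]
    have hcard : ((inters A B).image (fun S => Sᶜ)).card = (inters A B).card :=
      Finset.card_image_of_injective _ compl_injective
    have := Finset.card_le_card himg
    omega
  · have hz : (inters A B).card = 0 := by
      rw [Finset.card_eq_zero]
      unfold inters
      rw [Finset.image_eq_empty, Finset.product_eq_empty]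
      by_contra hcon
      apply hne
      simp only [not_or] at hcon
      exact ⟨Finset.nonempty_iff_ne_empty.2 hcon.1, Finset.nonempty_iff_ne_empty.2 hcon.2⟩
    have := two_pow_sum (d := d) (i := 0) (j := 2*d+1) (by omega)
    rw [hz]
    simpa [add_comm] using this

theorem lower (d : ℕ) : ∃ A B : Finset (Finset (Fin (2*d+1))), CrossSperner A B ∧
    2^(2*d+1) + 1 ≤ (inters A B).card + 3 * 2^d := by
  classical
  obtain ⟨X, -, hX⟩ := Finset.exists_subset_card_eq
    (s := (Finset.univ : Finset (Fin (2*d+1)))) (n := d) (by rw [Finset.card_univ, Fintype.card_fin]; omega)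
  set Y := Xᶜ with hY
  have hYc : Y.card = d + 1 := by
    rw [hY, Finset.card_compl, Fintype.card_fin, hX]; omega
  refine ⟨X.ssubsets.image (fun S => S ∪ Y), Y.ssubsets.image (fun S => X ∪ S), ?_, ?_⟩
  · intro a ha b hb
    rw [Finset.mem_image] at ha hb
    obtain ⟨S, hS, rfl⟩ := ha
    obtain ⟨T, hT, rfl⟩ := hb
    rw [Finset.mem_ssubsets] at hS hT
    constructor
    · intro hsub
      apply hT.2
      intro x hx
      have h1 := hsub (Finset.mem_union_right _ hx)
      rcases Finset.mem_union.1 h1 with h | h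
      · rw [hY, Finset.mem_compl] at hx
        exact absurd h hx
      · exact h
    · intro hsub
      apply hS.2
      intro x hx
      have h1 := hsub (Finset.mem_union_left _ hx)
      rcases Finset.mem_union.1 h1 with h | h
      · exact h
      · rw [hY, Finset.mem_compl] at h
        exact absurd hx h
  · have hsub : (X.ssubsets ×ˢ Y.ssubsets).image (fun p => p.1 ∪ p.2) ⊆
        inters (X.ssubsets.image (fun S => S ∪ Y)) (Y.ssubsets.image (fun S => X ∪ S)) := by
      intro S hS
      rw [Finset.mem_image] at hS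
      obtain ⟨⟨U, V⟩, hUV, rfl⟩ := hS
      rw [Finset.mem_product] at hUV
      unfold inters
      rw [Finset.mem_image]
      refine ⟨(U ∪ Y, X ∪ V), ?_, ?_⟩
      · rw [Finset.mem_product]
        exact ⟨Finset.mem_image_of_mem _ hUV.1, Finset.mem_image_of_mem _ hUV.2⟩
      · have hU := (Finset.mem_ssubsets.1 hUV.1).1
        have hV := (Finset.mem_ssubsets.1 hUV.2).1
        ext x
        simp only [Finset.mem_inter, Finset.mem_union]
        constructor
        · rintro ⟨h1 | h1, h2 | h2⟩
          · exact Or.inl h1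
          · exact Or.inr h2
          · rw [hY, Finset.mem_compl] at h1
            exact absurd h2 h1
          · exact Or.inr h2
        · rintro (h1 | h1)
          · exact ⟨Or.inl h1, Or.inl (hU h1)⟩
          · exact ⟨Or.inr (hV h1), Or.inr h1⟩
    have hinj : Set.InjOn (fun p : Finset (Fin (2*d+1)) × Finset (Fin (2*d+1)) => p.1 ∪ p.2)
        (X.ssubsets ×ˢ Y.ssubsets : Finset _) := by
      rintro ⟨U, V⟩ h1 ⟨U', V'⟩ h2 h3
      rw [Finset.mem_coe, Finset.mem_product] at h1 h2
      have hU := (Finset.mem_ssubsets.1 h1.1).1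
      have hV := (Finset.mem_ssubsets.1 h1.2).1
      have hU' := (Finset.mem_ssubsets.1 h2.1).1
      have hV' := (Finset.mem_ssubsets.1 h2.2).1
      have h4 : U ∪ V = U' ∪ V' := h3
      simp only at hU hV hU' hV'
      have key : ∀ U V : Finset (Fin (2*d+1)), U ⊆ X → V ⊆ Y → (U ∪ V) ∩ X = U ∧ (U ∪ V) ∩ Y = V := by
        intro U V hU hV
        constructor
        · ext x
          simp only [Finset.mem_inter, Finset.mem_union]
          constructor
          · rintro ⟨h5 | h5, h6⟩
            · exact h5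
            · have := hV h5
              rw [hY, Finset.mem_compl] at this
              exact absurd h6 this
          · intro h5
            exact ⟨Or.inl h5, hU h5⟩
        · ext x
          simp only [Finset.mem_inter, Finset.mem_union]
          constructor
          · rintro ⟨h5 | h5, h6⟩
            · rw [hY, Finset.mem_compl] at h6
              exact absurd (hU h5) h6
            · exact h5
          · intro h5
            exact ⟨Or.inr h5, hV h5⟩
      have k1 := key U V hU hV
      have k2 := key U' V' hU' hV'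
      rw [h4] at k1
      rw [Prod.mk.injEq]
      exact ⟨k1.1.symm.trans k2.1, k1.2.symm.trans k2.2⟩
    have hcard : ((X.ssubsets ×ˢ Y.ssubsets).image (fun p => p.1 ∪ p.2)).card =
        (2^d - 1) * (2^(d+1) - 1) := by
      rw [Finset.card_image_of_injOn hinj, Finset.card_product]
      unfold Finset.ssubsets
      rw [Finset.card_erase_of_mem (Finset.mem_powerset_self _),
        Finset.card_erase_of_mem (Finset.mem_powerset_self _), Finset.card_powerset,
        Finset.card_powerset, hX, hYc]
    have h5 := Finset.card_le_card hsub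
    rw [hcard] at h5
    obtain ⟨k, hk⟩ : ∃ k, 2^d = k + 1 := ⟨2^d - 1, by have : 1 ≤ 2^d := Nat.one_le_two_pow; omega⟩
    have e1 : 2^(d+1) = 2*(k+1) := by rw [pow_succ, hk]; ring
    have e2 : 2^(2*d+1) = 2*(k+1)^2 := by rw [pow_succ, mul_comm 2 d, pow_mul, hk]; ring
    rw [e1, hk] at h5
    rw [e2, hk]
    have e3 : 2*(k+1) - 1 = 2*k+1 := by omega
    rw [e3, Nat.add_sub_cancel] at h5
    nlinarith

/-- **Answer to Q1.**  For every `d`, the maximum number `m(2d+1)` of intersections of a cross-Sperner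
pair of families of subsets of `[2d+1]` exists and equals `2^(2d+1) - 2^(d+1) - 2^d + 1`. -/
theorem result (d : ℕ) :
    IsGreatest (sizes (2*d+1)) (m (2*d+1)) ∧
    (m (2*d+1) : ℤ) = 2^(2*d+1) - 2^(d+1) - 2^d + 1 := by
  obtain ⟨A, B, hAB, hlow⟩ := lower d
  have hup := upper d A B hAB
  have hval : (inters A B).card + 3*2^d = 2^(2*d+1) + 1 := by omega
  have hgreat : IsGreatest (sizes (2*d+1)) ((inters A B).card) := by
    refine ⟨⟨A, B, hAB, rfl⟩, ?_⟩
    rintro k ⟨A', B', hAB', rfl⟩
    have := upper d A' B' hAB'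
    omega
  have hm : m (2*d+1) = (inters A B).card := hgreat.csSup_eq
  rw [hm]
  refine ⟨hgreat, ?_⟩
  have hvalZ : ((inters A B).card : ℤ) + 3*2^d = 2^(2*d+1) + 1 := by exact_mod_cast hval
  have e : (2:ℤ)^(d+1) = 2 * 2^d := by ring
  rw [e]
  linarith

end Pool.Agent.Results.MP_841146_co.OddExact
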